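import Pool.Agent.Helper40.ZU.Stmts
import Mathlib.Dynamics.Ergodic.Extreme
import Mathlib.Dynamics.Ergodic.RadonNikodym

/-!
Sheet ZU (MP_7a8f48_an), row ECT: countably many ergodic measures.
-/

open MeasureTheory Filter Topology Set
open scoped ENNReal

namespace Pool.Agent.Helper55.ZU

open Pool.Agent.Helper40.ZU (ST_EDI ST_ECT)

/-- different ergodic measures are singular -/
theorem erg_sing {Z : Type} [MeasurableSpace Z] {τ : Z → Z} {μ ν : Measure Z}
    [IsProbabilityMeasure μ] [IsProbabilityMeasure ν] (hμ : Ergodic τ μ) (hν : Ergodic τ ν)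
    (h : μ ≠ ν) : μ.MutuallySingular ν := by
  have h1 := hν.toMeasurePreserving.withDensity_rnDeriv hμ.toMeasurePreserving
  have h2 : μ.withDensity (ν.rnDeriv μ) ≪ μ := withDensity_absolutelyContinuous _ _
  have h3 : μ.withDensity (ν.rnDeriv μ) ≤ ν := Measure.withDensity_rnDeriv_le _ _
  have : IsFiniteMeasure (μ.withDensity (ν.rnDeriv μ)) := isFiniteMeasure_of_le ν h3
  obtain ⟨c, hc⟩ := hμ.eq_smul_of_absolutelyContinuous h1 h2
  rcases eq_or_ne c 0 with h0 | h0
  · rw [h0, zero_smul] at hc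
    have h4 := Measure.rnDeriv_add_singularPart ν μ
    rw [hc, zero_add] at h4
    have h5 := Measure.mutuallySingular_singularPart ν μ
    rw [h4] at h5
    exact h5.symm
  · exfalso
    have h4 : μ ≪ ν := by
      refine Measure.AbsolutelyContinuous.mk fun s _ hs => ?_
      have h5 := h3 s
      rw [hc, hs, Measure.smul_apply, smul_eq_mul] at h5
      rcases mul_eq_zero.1 (le_antisymm h5 zero_le) with h6 | h6
      · exact absurd h6 h0
      · exact h6
    exact h (hν.eq_of_absolutelyContinuous hμ.toMeasurePreserving h4)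

/-- ECT: countably many ergodic measures. -/
theorem st_ECT (hEDI : ST_EDI) : ST_ECT := by
  intro Z _ _ τ hτ hE m _ hm
  obtain ⟨K, hK, hKm, hKe⟩ := hEDI Z m τ hm
  have := hK
  obtain ⟨E, hEd⟩ : ∃ E : Set (Measure Z),
    E = {μ : Measure Z | IsProbabilityMeasure μ ∧ Ergodic τ μ} := ⟨_, rfl⟩
  rw [← hEd] at hE
  have : Countable E := hE.to_subtype
  have hmem : ∀ μ : Measure Z, μ ∈ E ↔ IsProbabilityMeasure μ ∧ Ergodic τ μ := by
    intro μ
    rw [hEd]
    exact Iff.rfl
  have hp : ∀ μ : E, IsProbabilityMeasure (μ : Measure Z) := fun μ => ((hmem μ).1 μ.2).1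
  have he : ∀ μ : E, Ergodic τ (μ : Measure Z) := fun μ => ((hmem μ).1 μ.2).2
  have hS : ∀ μ ν : E, ∃ s : Set Z, μ ≠ ν → MeasurableSet s ∧ (μ : Measure Z) s = 0 ∧
      (ν : Measure Z) sᶜ = 0 := by
    intro μ ν
    by_cases h : μ = ν
    · exact ⟨∅, fun h' => absurd h h'⟩
    · have := hp μ
      have := hp ν
      obtain ⟨s, h1, h2, h3⟩ := erg_sing (he μ) (he ν) (fun h' => h (Subtype.ext h'))
      exact ⟨s, fun _ => ⟨h1, h2, h3⟩⟩
  choose S hS using hS
  obtain ⟨A, hA⟩ : ∃ A : E → Set Z, A = fun μ => ⋂ ν : E, ⋂ _ : ν ≠ μ, (S μ ν)ᶜ ∩ S ν μ := ⟨_, rfl⟩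
  have hAm : ∀ μ, MeasurableSet (A μ) := by
    intro μ
    rw [hA]
    refine MeasurableSet.iInter fun ν => MeasurableSet.iInter fun h => ?_
    exact (hS μ ν h.symm).1.compl.inter (hS ν μ h).1
  have hsub : ∀ μ ν : E, ν ≠ μ → A μ ⊆ (S μ ν)ᶜ ∩ S ν μ := by
    intro μ ν h
    rw [hA]
    exact (iInter_subset _ ν).trans (iInter_subset _ h)
  have hA1 : ∀ μ : E, (μ : Measure Z) (A μ)ᶜ = 0 := by
    intro μ
    rw [hA, compl_iInter]
    refine measure_iUnion_null fun ν => ?_
    rw [compl_iInter]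
    refine measure_iUnion_null fun h => ?_
    rw [compl_inter, compl_compl]
    exact measure_union_null (hS μ ν h.symm).2.1 (hS ν μ h).2.2
  have hA0 : ∀ μ ν : E, ν ≠ μ → (ν : Measure Z) (A μ) = 0 := by
    intro μ ν h
    exact measure_mono_null ((hsub μ ν h).trans inter_subset_left) (hS μ ν h.symm).2.2
  have hdis : ∀ μ ν : E, μ ≠ ν → Disjoint (A μ) (A ν) := by
    intro μ ν h
    refine Set.disjoint_left.2 fun x hx hy => ?_
    exact ((hsub μ ν h.symm) hx).1 ((hsub ν μ h) hy).2
  obtain ⟨e, hinj⟩ := exists_injective_nat E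
  obtain ⟨B, hB⟩ : ∃ B : ℕ → Set Z, B = fun n => ⋃ μ : E, ⋃ _ : e μ = n, A μ := ⟨_, rfl⟩
  have hBe : ∀ μ : E, B (e μ) = A μ := by
    intro μ
    rw [hB]
    refine Subset.antisymm ?_ ?_
    · refine iUnion_subset fun ν => iUnion_subset fun h => ?_
      rw [hinj h]
    · exact (subset_iUnion (fun _ : e μ = e μ => A μ) rfl).trans
        (subset_iUnion (fun ν : E => ⋃ _ : e ν = e μ, A ν) μ)
  have hBn : ∀ n : ℕ, (∀ μ : E, e μ ≠ n) → B n = ∅ := by
    intro n h
    rw [hB]
    refine subset_empty_iff.1 (iUnion_subset fun ν => iUnion_subset fun h' => ?_)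
    exact absurd h' (h ν)
  have hBm : ∀ n, MeasurableSet (B n) := by
    intro n
    rw [hB]
    exact MeasurableSet.iUnion fun ν => MeasurableSet.iUnion fun _ => hAm ν
  have hKE : ∀ᵐ ω ∂m, ∃ μ : E, K ω = μ := by
    filter_upwards [hKe] with ω hω
    have : K ω ∈ E := (hmem _).2 ⟨inferInstance, hω⟩
    exact ⟨⟨K ω, this⟩, rfl⟩
  have hmK : ∀ s, MeasurableSet s → m s = ∫⁻ ω, K ω s ∂m := by
    intro s hs
    have h := Measure.bind_apply (m := m) (f := K) hs K.aemeasurable
    rw [hKm] at h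
    exact h
  have hBmu : ∀ (n : ℕ) (μ : E), e μ ≠ n → (μ : Measure Z) (B n) = 0 := by
    intro n μ h
    by_cases h2 : ∃ ν : E, e ν = n
    · obtain ⟨ν, hν⟩ := h2
      rw [← hν, hBe]
      refine hA0 ν μ fun h3 => h ?_
      rw [h3, hν]
    · push Not at h2
      rw [hBn n h2, measure_empty]
  -- the measure on the part
  have hpart : ∀ (μ : E) (s : Set Z), MeasurableSet s →
      m (A μ ∩ s) = m (A μ) * (μ : Measure Z) s := by
    intro μ s hs
    rw [hmK _ ((hAm μ).inter hs), hmK _ (hAm μ), ← lintegral_mul_const _ (K.measurable_coe (hAm μ))]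
    refine lintegral_congr_ae ?_
    filter_upwards [hKE] with ω hω
    obtain ⟨ν, hν⟩ := hω
    show K ω (A μ ∩ s) = K ω (A μ) * (μ : Measure Z) s
    rw [hν]
    have := hp ν
    by_cases h : ν = μ
    · rw [h]
      have := hp μ
      have h1 : (μ : Measure Z) (A μ) = 1 := (prob_compl_eq_zero_iff (hAm μ)).1 (hA1 μ)
      rw [h1, one_mul, inter_comm, measure_inter_conull (hA1 μ)]
    · have h1 := hA0 μ ν h
      rw [h1, zero_mul]
      exact measure_mono_null inter_subset_left h1
  refine ⟨B, hBm, ?_, ?_, ?_, ?_⟩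
  · intro i j hij
    show Disjoint (B i) (B j)
    by_cases h1 : ∃ μ : E, e μ = i
    · by_cases h2 : ∃ μ : E, e μ = j
      · obtain ⟨μ, hμ⟩ := h1
        obtain ⟨ν, hν⟩ := h2
        rw [← hμ, ← hν, hBe, hBe]
        refine hdis μ ν fun h => hij ?_
        rw [← hμ, ← hν, h]
      · push Not at h2
        rw [hBn j h2]
        exact disjoint_bot_right
    · push Not at h1
      rw [hBn i h1]
      exact disjoint_bot_left
  · intro i
    have hd : MeasurableSet (symmDiff (τ ⁻¹' B i) (B i)) := (hτ (hBm i)).symmDiff (hBm i)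
    rw [← measure_symmDiff_eq_zero_iff, hmK _ hd]
    refine (lintegral_eq_zero_iff (K.measurable_coe hd)).2 ?_
    filter_upwards [hKE] with ω hω
    obtain ⟨ν, hν⟩ := hω
    show K ω (symmDiff (τ ⁻¹' B i) (B i)) = 0
    rw [hν]
    have := hp ν
    by_cases h : e ν = i
    · rw [← h, hBe]
      have h1 := hA1 ν
      have h2 : (ν : Measure Z) (τ ⁻¹' A ν)ᶜ = 0 := by
        rw [← preimage_compl, (he ν).toMeasurePreserving.measure_preimage
          (hAm ν).compl.nullMeasurableSet]
        exact h1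
      refine measure_mono_null ?_ (measure_union_null h1 h2)
      intro x hx
      rcases hx with hx | hx
      · exact Or.inl hx.2
      · exact Or.inr hx.2
    · have h1 := hBmu i ν h
      have h2 : (ν : Measure Z) (τ ⁻¹' B i) = 0 := by
        rw [(he ν).toMeasurePreserving.measure_preimage (hBm i).nullMeasurableSet]
        exact h1
      refine measure_mono_null ?_ (measure_union_null h1 h2)
      intro x hx
      rcases hx with hx | hx
      · exact Or.inr hx.1
      · exact Or.inl hx.1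
  · have hd : MeasurableSet (⋃ i, B i)ᶜ := (MeasurableSet.iUnion hBm).compl
    rw [hmK _ hd]
    refine (lintegral_eq_zero_iff (K.measurable_coe hd)).2 ?_
    filter_upwards [hKE] with ω hω
    obtain ⟨ν, hν⟩ := hω
    show K ω (⋃ i, B i)ᶜ = 0
    rw [hν]
    refine measure_mono_null ?_ (hA1 ν)
    refine compl_subset_compl.2 ?_
    rw [← hBe ν]
    exact subset_iUnion B (e ν)
  · intro i hi
    by_cases h1 : ∃ μ : E, e μ = i
    · obtain ⟨μ, hμ⟩ := h1
      rw [← hμ, hBe] at hi ⊢
      have h2 : ProbabilityTheory.cond m (A μ) = μ := by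
        refine Measure.ext fun s hs => ?_
        rw [ProbabilityTheory.cond_apply (hAm μ), hpart μ s hs, ← mul_assoc,
          ENNReal.inv_mul_cancel hi (measure_ne_top _ _), one_mul]
      rw [h2]
      exact he μ
    · push Not at h1
      rw [hBn i h1, measure_empty] at hi
      exact absurd rfl hi

end Pool.Agent.Helper55.ZU
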